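import Mathlib
import Pool.Graph.R_pool_sql_team_seeded_843ab51a.V110.LW.Main

/-!
# Operators with spectral synthesis on arbitrary Hilbert spaces

On every infinite-dimensional complex Hilbert space there is a compact operator, all closed invariant
subspaces of which are spanned by eigenvectors, which is not reflexive; on a finite-dimensional one
every such operator is reflexive.
-/

set_option autoImplicit false

open scoped InnerProductSpace ComplexConjugate
open Filter Topology

namespace Pool.Agent.KS6_21.RF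

open Pool.Agent.V110

universe u

theorem exists_orthonormal {K : Type u} [NormedAddCommGroup K] [InnerProductSpace ℂ K]
    [CompleteSpace K] (h : ¬ FiniteDimensional ℂ K) : ∃ e : ℕ → K, Orthonormal ℂ e := by
  obtain ⟨w, e, -⟩ := exists_hilbertBasis ℂ K
  rcases finite_or_infinite w with hf | hf
  · exfalso
    apply h
    have := Fintype.ofFinite w
    exact Module.Finite.of_basis e.toOrthonormalBasis.toBasis
  · exact ⟨_, e.orthonormal.comp _ (Infinite.natEmbedding w).injective⟩

theorem exists_isometry {K : Type u} [NormedAddCommGroup K] [InnerProductSpace ℂ K]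
    [CompleteSpace K] (h : ¬ FiniteDimensional ℂ K) : Nonempty (LW.H →ₗᵢ[ℂ] K) := by
  obtain ⟨e, he⟩ := exists_orthonormal h
  exact ⟨he.orthogonalFamily.linearIsometry⟩

section

variable {K : Type u} [NormedAddCommGroup K] [InnerProductSpace ℂ K] [CompleteSpace K]
  (J : LW.H →ₗᵢ[ℂ] K)

/-- The adjoint of the embedding. -/
noncomputable def Jd : K →L[ℂ] LW.H := ContinuousLinearMap.adjoint J.toContinuousLinearMap

theorem inner_Jd (y : K) (x : LW.H) : ⟪Jd J y, x⟫_ℂ = ⟪y, J x⟫_ℂ :=
  ContinuousLinearMap.adjoint_inner_left _ _ _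

theorem Jd_J (x : LW.H) : Jd J (J x) = x := by
  refine ext_inner_right ℂ fun v => ?_
  rw [inner_Jd, J.inner_map_map]

/-- The operator. -/
noncomputable def T : K →L[ℂ] K := J.toContinuousLinearMap ∘L LW.A ∘L Jd J

theorem T_apply (x : K) : T J x = J (LW.A (Jd J x)) := rfl

/-- The projection. -/
noncomputable def Q : K →L[ℂ] K := J.toContinuousLinearMap ∘L LW.B ∘L Jd J

theorem Q_apply (x : K) : Q J x = J (LW.B (Jd J x)) := rfl

theorem T_pow (k : ℕ) (x : K) : (T J ^ (k + 1)) x = J ((LW.A ^ (k + 1)) (Jd J x)) := by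
  induction k with
  | zero => rw [zero_add, pow_one, pow_one]; rfl
  | succ k ih =>
    rw [pow_succ' (T J), mul_apply_eq_comp, ih, T_apply, Jd_J, pow_succ' LW.A (k + 1),
      mul_apply_eq_comp]

theorem T_J (x : LW.H) : T J (J x) = J (LW.A x) := by rw [T_apply, Jd_J]

theorem poly_J (p : Polynomial ℂ) : ∀ x : LW.H,
    (Polynomial.aeval (T J) p) (J x) = J ((Polynomial.aeval LW.A p) x) := by
  induction p using Polynomial.induction_on' with
  | add p q hp hq =>
    intro x
    rw [map_add, map_add, add_apply, add_apply, hp, hq, map_add]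
  | monomial n a =>
    intro x
    rw [Polynomial.aeval_monomial, Polynomial.aeval_monomial]
    have h : ∀ n : ℕ, ∀ x : LW.H, (T J ^ n) (J x) = J ((LW.A ^ n) x) := by
      intro n
      induction n with
      | zero => intro x; simp
      | succ n ih =>
        intro x
        rw [pow_succ, mul_apply_eq_comp, T_J, ih, pow_succ, mul_apply_eq_comp]
    rw [mul_apply_eq_comp, mul_apply_eq_comp, h, ContinuousLinearMap.algebraMap_apply,
      ContinuousLinearMap.algebraMap_apply, map_smul]

/-! ### Compactness -/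

theorem compact_P (n : ℕ) : IsCompactOperator (LW.P n) := by
  have h : IsCompactOperator (ContinuousLinearMap.id ℂ ℂ) := by
    refine ⟨Metric.closedBall 0 1, ProperSpace.isCompact_closedBall _ _, ?_⟩
    exact Metric.closedBall_mem_nhds _ one_pos
  have h2 := (h.clm_comp ((ContinuousLinearMap.id ℂ ℂ).smulRight (LW.f n))).comp_clm
    (innerSL ℂ (LW.g n))
  exact h2

theorem compact_A : IsCompactOperator LW.A := by
  have h := LW.summable_lamP.hasSum
  have h1 : ∀ s : Finset ℕ, (∑ n ∈ s, LW.lam n • LW.P n) ∈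
      {A : LW.H →L[ℂ] LW.H | IsCompactOperator A} := by
    intro s
    classical
    induction s using Finset.induction_on with
    | empty => rw [Finset.sum_empty]; exact isCompactOperator_zero
    | insert a s ha ih =>
      rw [Finset.sum_insert ha]
      exact ((compact_P a).smul (LW.lam a)).add ih
  exact isClosed_setOfPred_isCompactOperator.mem_of_tendsto h (Filter.Eventually.of_forall h1)

theorem compact_T : IsCompactOperator (T J) :=
  ((compact_A.comp_clm (Jd J))).clm_comp J.toContinuousLinearMap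

/-! ### Invariant subspaces -/

section inv

variable {M : Submodule ℂ K} (hM : IsClosed (M : Set K)) (hi : ∀ x ∈ M, T J x ∈ M)

include hM hi

omit hM in
theorem pow_mem (k : ℕ) : ∀ x ∈ M, (T J ^ k) x ∈ M := by
  induction k with
  | zero => intro x hx; simpa using hx
  | succ k ih =>
    intro x hx
    rw [pow_succ', mul_apply_eq_comp]
    exact hi _ (ih x hx)

omit hM in
theorem products {x y : K} (hx : x ∈ M) (hy : y ∈ Mᗮ) (n : ℕ) :
    ⟪LW.g n, Jd J x⟫_ℂ * ⟪Jd J y, LW.f n⟫_ℂ = 0 := by
  refine LW.moments (LW.lam_norm_bound (Jd J x) (Jd J y)) (fun k => ?_) n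
  have h1 := (innerSL ℂ (Jd J y)).hasSum (LW.pow_hasSum k (Jd J x))
  have h2 : ⟪y, (T J ^ (k + 1)) x⟫_ℂ = 0 :=
    Submodule.inner_left_of_mem_orthogonal (pow_mem J hi (k + 1) x hx) hy
  rw [T_pow, ← inner_Jd] at h2
  have h3 : (innerSL ℂ (Jd J y)) ((LW.A ^ (k + 1)) (Jd J x)) = 0 := h2
  rw [h3] at h1
  have h4 : (fun n => LW.lam n ^ (k + 1) * (⟪LW.g n, Jd J x⟫_ℂ * ⟪Jd J y, LW.f n⟫_ℂ)) =
      fun n => (innerSL ℂ (Jd J y)) ((LW.lam n ^ (k + 1) * ⟪LW.g n, Jd J x⟫_ℂ) • LW.f n) := by
    funext n
    change _ = ⟪Jd J y, (LW.lam n ^ (k + 1) * ⟪LW.g n, Jd J x⟫_ℂ) • LW.f n⟫_ℂ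
    rw [inner_smul_right]
    ring
  rw [h4]
  exact h1

omit hi in
theorem mem_of_orth {v : K} (h : ∀ y ∈ Mᗮ, ⟪y, v⟫_ℂ = 0) : v ∈ M := by
  have hc : CompleteSpace M := hM.completeSpace_coe
  rw [← Submodule.orthogonal_orthogonal M]
  rw [Submodule.mem_orthogonal]
  exact h

theorem f_mem {x : K} (hx : x ∈ M) {n : ℕ} (hn : ⟪LW.g n, Jd J x⟫_ℂ ≠ 0) : J (LW.f n) ∈ M := by
  refine mem_of_orth hM fun y hy => ?_
  rw [← inner_Jd]
  exact (mul_eq_zero.1 (products J hi hx hy n)).resolve_left hn

/-- The inner product with `Q x`. -/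
theorem inner_Q {x y : K} (h : ∀ n, ⟪LW.g n, Jd J x⟫_ℂ * ⟪Jd J y, LW.f n⟫_ℂ = 0) :
    ⟪y, Q J x⟫_ℂ = 0 := by
  rw [Q_apply, ← inner_Jd, LW.B_apply, inner_sub_right, inner_smul_right, LW.inner_e_right,
    LW.strong h]
  ring

theorem Q_mem {x : K} (hx : x ∈ M) : Q J x ∈ M :=
  mem_of_orth hM fun _ hy => inner_Q J hM hi (products J hi hx hy)

theorem synthesis :
    M = (Submodule.span ℂ {x : K | x ∈ M ∧ ∃ c : ℂ, T J x = c • x}).topologicalClosure := by
  set E : Submodule ℂ K := Submodule.span ℂ {x : K | x ∈ M ∧ ∃ c : ℂ, T J x = c • x} with hE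
  refine le_antisymm ?_ ?_
  · intro x hx
    have hEc : IsClosed (E.topologicalClosure : Set K) := E.isClosed_topologicalClosure
    have hsub : E ≤ E.topologicalClosure := Submodule.le_topologicalClosure _
    have h1 : Q J x ∈ E.topologicalClosure := by
      refine mem_of_orth hEc fun y hy => inner_Q J hM hi fun n => ?_
      by_cases hn : ⟪LW.g n, Jd J x⟫_ℂ = 0
      · rw [hn, zero_mul]
      · have h2 : J (LW.f n) ∈ E.topologicalClosure := by
          refine hsub (Submodule.subset_span ⟨f_mem J hM hi hx hn, LW.lam n, ?_⟩)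
          rw [T_J, LW.A_f, map_smul]
        rw [inner_Jd, Submodule.inner_left_of_mem_orthogonal h2 hy, mul_zero]
    have h2 : x - Q J x ∈ E.topologicalClosure := by
      refine hsub (Submodule.subset_span ⟨M.sub_mem hx (Q_mem J hM hi hx), 0, ?_⟩)
      rw [zero_smul, map_sub, T_apply, T_apply, Q_apply, Jd_J, LW.B_apply, map_sub, map_smul,
        LW.A_e0, smul_zero, sub_zero, sub_self]
    have h3 : x = Q J x + (x - Q J x) := by abel
    rw [h3]
    exact Submodule.add_mem _ h1 h2
  · refine Submodule.topologicalClosure_minimal _ ?_ hM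
    rw [hE, Submodule.span_le]
    rintro x ⟨hx, -⟩
    exact hx

end inv

/-- No polynomial in `T` is near `Q`. -/
theorem far : ∃ s : Finset (K × K), ∀ p : Polynomial ℂ, ∃ z ∈ s,
    1 / 4 ≤ ‖⟪(Q J - Polynomial.aeval (T J) p) z.1, z.2⟫_ℂ‖ := by
  classical
  refine ⟨{(J LW.X1, J LW.Y1), (J LW.X2, J LW.Y2), (J (LW.e 1), J (LW.e 1)),
    (J (LW.e 0), J (LW.e 0))}, fun p => ?_⟩
  by_contra hcon
  push Not at hcon
  have key : ∀ x y : LW.H, ⟪(Q J - Polynomial.aeval (T J) p) (J x), J y⟫_ℂ =
      ⟪(LW.B - Polynomial.aeval LW.A p) x, y⟫_ℂ := by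
    intro x y
    rw [sub_apply, sub_apply, Q_apply, Jd_J, poly_J, ← map_sub, J.inner_map_map]
  have h1 := hcon (J LW.X1, J LW.Y1) (by simp)
  have h2 := hcon (J LW.X2, J LW.Y2) (by simp)
  have h3 := hcon (J (LW.e 1), J (LW.e 1)) (by simp)
  have h4 := hcon (J (LW.e 0), J (LW.e 0)) (by simp)
  simp only [key] at h1 h2 h3 h4
  set S : LW.H →L[ℂ] LW.H := LW.B - Polynomial.aeval LW.A p with hS
  have h5 : LW.Psi S = 1 := by
    rw [hS, LW.Psi_sub, LW.Psi_B, LW.Psi_poly, sub_zero]
  rw [norm_inner_symm] at h1 h2 h3 h4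
  have h6 : ‖LW.Psi S‖ < 1 := by
    unfold LW.Psi
    refine (norm_sub_le _ _).trans_lt ?_
    have h7 := norm_add₃_le (a := ⟪LW.Y1, S LW.X1⟫_ℂ)
      (b := ⟪LW.Y2, S LW.X2⟫_ℂ) (c := ⟪LW.e 1, S (LW.e 1)⟫_ℂ)
    linarith
  rw [h5, norm_one] at h6
  exact lt_irrefl _ h6

end

/-! ### Finite dimension -/

/-- On a finite-dimensional space every operator which leaves the spans of eigenvectors of a
diagonalizable operator invariant is a polynomial in it. -/
theorem finite_dim {K : Type u} [NormedAddCommGroup K] [InnerProductSpace ℂ K]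
    [FiniteDimensional ℂ K] (A B : K →L[ℂ] K)
    (hA : ∀ M : Submodule ℂ K, IsClosed (M : Set K) → (∀ x ∈ M, A x ∈ M) →
      M = (Submodule.span ℂ {x : K | x ∈ M ∧ ∃ c : ℂ, A x = c • x}).topologicalClosure)
    (hB : ∀ M : Submodule ℂ K, IsClosed (M : Set K) → (∀ x ∈ M, A x ∈ M) → ∀ x ∈ M, B x ∈ M) :
    ∃ p : Polynomial ℂ, B = Polynomial.aeval A p := by
  classical
  have htop := hA ⊤ isClosed_univ (fun _ _ => Submodule.mem_top)
  have hcl : ∀ M : Submodule ℂ K, IsClosed (M : Set K) := fun M => M.closed_of_finiteDimensional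
  rw [IsClosed.submodule_topologicalClosure_eq (hcl _)] at htop
  -- the vectors of an eigenspace are eigenvectors of `B`
  have h1 : ∀ x : K, ∀ c : ℂ, A x = c • x → ∃ d : ℂ, B x = d • x := by
    intro x c hx
    have h2 := hB (Submodule.span ℂ {x}) (hcl _) (fun y hy => by
      obtain ⟨a, rfl⟩ := Submodule.mem_span_singleton.1 hy
      rw [map_smul, hx]
      exact Submodule.smul_mem _ _ (Submodule.smul_mem _ _ (Submodule.mem_span_singleton_self x)))
      x (Submodule.mem_span_singleton_self x)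
    obtain ⟨d, hd⟩ := Submodule.mem_span_singleton.1 h2
    exact ⟨d, hd.symm⟩
  -- the scalar depends only on the eigenvalue
  have h3 : ∀ c : ℂ, ∃ d : ℂ, ∀ x : K, A x = c • x → B x = d • x := by
    intro c
    by_cases hc : ∃ x : K, x ≠ 0 ∧ A x = c • x
    · obtain ⟨x, hx0, hx⟩ := hc
      obtain ⟨d, hd⟩ := h1 x c hx
      refine ⟨d, fun y hy => ?_⟩
      obtain ⟨d1, hd1⟩ := h1 y c hy
      obtain ⟨d2, hd2⟩ := h1 (x + y) c (by rw [map_add, hx, hy, smul_add])
      rw [map_add, hd, hd1] at hd2
      -- `d x + d1 y = d2 x + d2 y`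
      have e1 : (d - d2) • x = (d2 - d1) • y := by
        rw [sub_smul, sub_smul, sub_eq_sub_iff_add_eq_add]
        rw [smul_add] at hd2
        rw [hd2]
        abel
      by_cases h21 : d2 = d1
      · rw [h21, sub_self, zero_smul] at e1
        have h4 : d = d1 := by
          rcases smul_eq_zero.1 e1 with h | h
          · exact sub_eq_zero.1 h
          · exact absurd h hx0
        rw [hd1, h4]
      · have h5 : y = ((d2 - d1)⁻¹ * (d - d2)) • x := by
          rw [mul_smul, e1, smul_smul, inv_mul_cancel₀ (sub_ne_zero.2 h21), one_smul]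
        rw [h5, map_smul, hd, smul_comm]
    · push Not at hc
      refine ⟨0, fun x hx => ?_⟩
      by_cases hx0 : x = 0
      · rw [hx0, map_zero, smul_zero]
      · exact absurd hx (hc x hx0)
  choose d hd using h3
  -- finitely many eigenvalues
  have hfin : {c : ℂ | ∃ x : K, x ≠ 0 ∧ A x = c • x}.Finite := by
    refine (Module.End.finite_hasEigenvalue (A : K →ₗ[ℂ] K)).subset ?_
    rintro c ⟨x, hx0, hx⟩
    exact Module.End.hasEigenvalue_of_hasEigenvector (x := x)
      ⟨Module.End.mem_eigenspace_iff.2 hx, hx0⟩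
  let p : Polynomial ℂ := Lagrange.interpolate hfin.toFinset id d
  have hp : ∀ c ∈ hfin.toFinset, p.eval c = d c := fun c hc =>
    Lagrange.eval_interpolate_at_node d (fun _ _ _ _ h => h) hc
  refine ⟨p, ?_⟩
  ext1 x
  have hx : x ∈ (⊤ : Submodule ℂ K) := Submodule.mem_top
  rw [htop] at hx
  induction hx using Submodule.span_induction with
  | mem y hy =>
    obtain ⟨-, c, hc⟩ := hy
    by_cases hy0 : y = 0
    · rw [hy0, map_zero, map_zero]
    · have hcm : c ∈ hfin.toFinset := by
        rw [Set.Finite.mem_toFinset]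
        exact ⟨y, hy0, hc⟩
      have h4 : (Polynomial.aeval A p) y = p.eval c • y := by
        have h5 : ∀ q : Polynomial ℂ, (Polynomial.aeval A q) y = q.eval c • y := by
          intro q
          induction q using Polynomial.induction_on' with
          | add q r hq hr => rw [map_add, add_apply, hq, hr, Polynomial.eval_add, add_smul]
          | monomial n a =>
            have h6 : (A ^ n) y = c ^ n • y := by
              induction n with
              | zero => simp
              | succ n ih => rw [pow_succ', mul_apply_eq_comp, ih, map_smul, hc, smul_smul, pow_succ]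
            rw [Polynomial.aeval_monomial, mul_apply_eq_comp, h6, Polynomial.eval_monomial,
              ContinuousLinearMap.algebraMap_apply, smul_smul]
        exact h5 p
      rw [h4, hp c hcm, hd c y hc]
  | zero => rw [map_zero, map_zero]
  | add y z _ _ hy hz => rw [map_add, map_add, hy, hz]
  | smul a y _ hy => rw [map_smul, map_smul, hy]

end Pool.Agent.KS6_21.RF
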